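import Pool.Agent.W425.ND.Stm

/-! # ND-REP2: division by the parameter (helper398) -/

set_option autoImplicit false

namespace Pool.Agent.W398.ND

open MvPolynomial Pool.Agent.W425.ND

variable {N : ℕ} {R : Type} [CommRing R]

lemma sum_app {ι : Type} (S : Finset ι) (F : ι → Fn N R) (s : ℕ) (e : Fin N →₀ ℕ) :
    (∑ i ∈ S, F i) s e = ∑ i ∈ S, F i s e := by
  classical
  induction S using Finset.induction_on with
  | empty => rfl
  | insert a S ha ih =>
    rw [Finset.sum_insert ha, Finset.sum_insert ha, Pool.Agent.W425.ND.add_apply, ih]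

/-- multiplication by a monomial -/
lemma low_neg (c : Fin N →₀ ℕ) (w : Fn N R) (s : ℕ) (e : Fin N →₀ ℕ) :
    low (fun i => -(c i : ℤ)) w s e = if c ≤ e then w s (e - c) else 0 := by
  unfold low
  have h1 : (∀ i, 0 ≤ (e i : ℤ) + -(c i : ℤ)) ↔ c ≤ e := by
    rw [Finsupp.le_def]
    exact forall_congr' fun i => by omega
  by_cases h : c ≤ e
  · rw [if_pos (h1.2 h), if_pos h]
    have h2 : ∀ i, ((e i : ℤ) + -(c i : ℤ)).toNat.descFactorial ((-(c i : ℤ)).toNat) = 1 := by
      intro i
      have : (-(c i : ℤ)).toNat = 0 := by omega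
      rw [this, Nat.descFactorial_zero]
    simp only [h2, Finset.prod_const_one, Nat.cast_one, one_mul]
    congr 1
    ext i
    unfold tr
    rw [Finsupp.equivFunOnFinite_symm_apply_apply, Finsupp.tsub_apply]
    beta_reduce
    omega
  · rw [if_neg (fun h' => h (h1.1 h')), if_neg h]

lemma brk_one (f : MvPolynomial (Fin N) R) (s : ℕ) (e : Fin N →₀ ℕ) :
    brk f 1 0 s e = coeff e (f ^ s) := by
  unfold brk
  rw [Nat.descFactorial_zero, Nat.cast_one, one_mul, one_mul, Nat.sub_zero]

/-- one term -/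
lemma term (f : MvPolynomial (Fin N) R) (c : Fin N →₀ ℕ) (t : R) (j s : ℕ) (e : Fin N →₀ ℕ) :
    low (fun i => -(c i : ℤ))
      ((C t * X none ^ j : MvPolynomial (Option (Fin N)) R) • brk f 1 0) s e =
      coeff e (monomial c t * ((s : ℕ) : MvPolynomial (Fin N) R) ^ j * f ^ s) := by
  rw [low_neg, mul_assoc, coeff_monomial_mul']
  by_cases h : c ≤ e
  · rw [if_pos h, if_pos h, Pool.Agent.W425.ND.smul_apply, brk_one, map_mul, map_pow, eval_C, eval_X]
    have h1 : ((s : ℕ) : MvPolynomial (Fin N) R) ^ j = C ((s : R) ^ j) := by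
      rw [map_pow, map_natCast]
    rw [h1, coeff_C_mul]
    simp only [ev]
    ring
  · rw [if_neg h, if_neg h]

theorem rep2 : TaskREP2 := by
  classical
  intro N k _ _ f hf u hu h0
  obtain ⟨L, q, U, hU, hq⟩ := hu
  set κ : MvPolynomial (Fin N) (PowerSeries k) →+* MvPolynomial (Fin N) k :=
    map PowerSeries.constantCoeff with hκ
  have hf0 : f ≠ 0 := by
    rintro rfl
    exact hf (map_zero _)
  -- reduction modulo the parameter
  have hκU : ∀ s, κ (U s) = 0 := by
    intro s
    ext e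
    rw [hκ, coeff_map, ← hU, h0, coeff_zero]
  have hroot : ∀ s : ℕ, (q.map κ).eval ((s : ℕ) : MvPolynomial (Fin N) k) = 0 := by
    intro s
    have h1 := congrArg κ (hq s)
    rw [map_mul, map_mul, hκU, mul_zero, map_pow] at h1
    rw [Polynomial.eval_natCast_map]
    rcases mul_eq_zero.1 h1.symm with h2 | h2
    · exact h2
    · exact absurd h2 (pow_ne_zero _ hf)
  have hq0 : q.map κ = 0 := by
    apply Polynomial.eq_zero_of_infinite_isRoot
    refine Set.Infinite.mono (s := Set.range (fun s : ℕ => ((s : ℕ) : MvPolynomial (Fin N) k))) ?_ ?_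
    · rintro _ ⟨s, rfl⟩
      exact hroot s
    · exact Set.infinite_range_of_injective Nat.cast_injective
  have hdvd : ∀ p : MvPolynomial (Fin N) (PowerSeries k), κ p = 0 → C PowerSeries.X ∣ p := by
    intro p hp
    rw [C_dvd_iff_dvd_coeff]
    intro e
    rw [PowerSeries.X_dvd_iff]
    have h1 := congrArg (coeff e) hp
    rwa [hκ, coeff_map, coeff_zero] at h1
  have hqd : (Polynomial.C (C PowerSeries.X : MvPolynomial (Fin N) (PowerSeries k))) ∣ q := by
    rw [Polynomial.C_dvd_iff_dvd_coeff]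
    intro j
    apply hdvd
    have h1 := congrArg (fun p => Polynomial.coeff p j) hq0
    simpa only [Polynomial.coeff_map, Polynomial.coeff_zero] using h1
  obtain ⟨q1, hq1⟩ := hqd
  have hUd : ∀ s, ∃ V, U s = C PowerSeries.X * V := fun s => hdvd _ (hκU s)
  choose U1 hU1 using hUd
  have hX0 : (C PowerSeries.X : MvPolynomial (Fin N) (PowerSeries k)) ≠ 0 := by
    rw [Ne, C_eq_zero]
    exact PowerSeries.X_ne_zero
  have hrel : ∀ s : ℕ, f ^ L * U1 s = q1.eval ((s : ℕ) : MvPolynomial (Fin N) (PowerSeries k)) *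
      f ^ s := by
    intro s
    have h1 := hq s
    rw [hU1, hq1, Polynomial.eval_mul, Polynomial.eval_C] at h1
    apply mul_left_cancel₀ hX0
    linear_combination h1
  set q2 := q1.comp (Polynomial.X + Polynomial.C ((L : ℕ) : MvPolynomial (Fin N) (PowerSeries k)))
    with hq2
  have hsh : ∀ s : ℕ, U1 (s + L) = q2.eval ((s : ℕ) : MvPolynomial (Fin N) (PowerSeries k)) *
      f ^ s := by
    intro s
    have h1 := hrel (s + L)
    apply mul_left_cancel₀ (pow_ne_zero L hf0)
    rw [h1, hq2, Polynomial.eval_comp, Polynomial.eval_add, Polynomial.eval_X, Polynomial.eval_C,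
      Nat.cast_add, pow_add]
    ring
  let z : Fn N (PowerSeries k) := fun s e => coeff e (U1 s)
  refine ⟨z, fun s e => ?_, ?_⟩
  · change u s e = PowerSeries.X * coeff e (U1 s)
    rw [hU, hU1, coeff_C_mul]
  set T : Finset (Σ _ : ℕ, (Fin N →₀ ℕ)) := q2.support.sigma (fun j => (q2.coeff j).support) with hT
  refine ⟨L, T.card, fun i => (T.equivFin.symm i).1.2, fun i =>
    C (coeff (T.equivFin.symm i).1.2 (q2.coeff (T.equivFin.symm i).1.1)) *
      X none ^ (T.equivFin.symm i).1.1, ?_⟩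
  funext s e
  rw [sum_app]
  let g : (Σ _ : ℕ, (Fin N →₀ ℕ)) → PowerSeries k := fun x =>
    coeff e (monomial x.2 (coeff x.2 (q2.coeff x.1)) *
        ((s : ℕ) : MvPolynomial (Fin N) (PowerSeries k)) ^ x.1 * f ^ s)
  have h1 : ∀ i : Fin T.card, low (fun i' => -(((T.equivFin.symm i).1.2) i' : ℤ))
      ((C (coeff (T.equivFin.symm i).1.2 (q2.coeff (T.equivFin.symm i).1.1)) *
      X none ^ (T.equivFin.symm i).1.1 : MvPolynomial (Option (Fin N)) (PowerSeries k)) •
        brk f 1 0) s e = (fun x : T => g x.1) (T.equivFin.symm i) := by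
    intro i
    exact term _ _ _ _ _ _
  have h2 : ∑ i : Fin T.card, (fun x : T => g x.1) (T.equivFin.symm i) = ∑ x : T, g x.1 :=
    Equiv.sum_comp T.equivFin.symm (fun x : T => g x.1)
  have h3 : ∑ x : T, g x.1 = ∑ x ∈ T, g x := Finset.sum_coe_sort T g
  have h4 : ∑ x ∈ T, g x = coeff e (U1 (s + L)) := by
    rw [hsh, hT, Finset.sum_sigma, Polynomial.eval_eq_sum, Polynomial.sum, Finset.sum_mul,
      coeff_sum]
    refine Finset.sum_congr rfl fun j _ => ?_
    change ∑ c ∈ (q2.coeff j).support, coeff e (monomial c (coeff c (q2.coeff j)) *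
        ((s : ℕ) : MvPolynomial (Fin N) (PowerSeries k)) ^ j * f ^ s) = _
    rw [← coeff_sum, ← Finset.sum_mul, ← Finset.sum_mul, support_sum_monomial_coeff]
  rw [Finset.sum_congr rfl fun i _ => h1 i, h2, h3, h4]
  rfl

end Pool.Agent.W398.ND
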